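import Pool.Agent.Q107.SE.Basic

/-!
# Two subsets of the same size of a finite abelian group have a common basis of characters

For every finite abelian group `G` and all `E₁`, `E₂ ⊆ G` with `|E₁| = |E₂|` there is a set `L` of
characters which is a Riesz basis for `E₁` and for `E₂`.
-/

namespace Pool.Agent.Results.MP_b06300_an.SimultaneousBases

/-- `L` is a Riesz basis of characters for `E`: it has `|E|` elements and the restrictions of the
characters in `L` to `E` are linearly independent in the space of functions on `E` -/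
def IsRieszBasisFor {G : Type*} [AddCommGroup G] (L : Finset (AddChar G ℂ)) (E : Finset G) : Prop :=
  L.card = E.card ∧
    LinearIndependent ℂ (fun χ : L => fun x : E => (χ : AddChar G ℂ) (x : G))

theorem result : ∀ (G : Type*) [AddCommGroup G] [Finite G] (E₁ E₂ : Finset G),
    E₁.Nonempty → E₂.Nonempty → E₁.card = E₂.card →
      ∃ L : Finset (AddChar G ℂ), IsRieszBasisFor L E₁ ∧ IsRieszBasisFor L E₂ := by
  intro G _ _ E₁ E₂ _ _ h
  classical
  have : Fintype G := Fintype.ofFinite G
  obtain ⟨L, hL, h1, h2⟩ := Q107.SE.exists_common E₁ E₂ h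
  have key : ∀ E : Finset G,
      LinearIndependent ℂ (fun χ : L => Q107.SE.rs E (χ : AddChar G ℂ)) →
      LinearIndependent ℂ (fun χ : L => fun x : E => (χ : AddChar G ℂ) (x : G)) := by
    intro E hE
    exact hE.map' (WithLp.linearEquiv 2 ℂ (E → ℂ)).toLinearMap (LinearEquiv.ker _)
  exact ⟨L, ⟨hL, key E₁ h1⟩, ⟨hL.trans h, key E₂ h2⟩⟩

end Pool.Agent.Results.MP_b06300_an.SimultaneousBases
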